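import Pool.Agent.Results.MP_2b5912_ag.IntegralProducts
import Pool.Agent.Y127.I.Cusp3

/-!
# Bounded index and irreducibility for systems with a cusp

The notation is that of the file `IntegralProducts`: `Γ` is the Galois group of a sufficiently large
finite extension of `k`, and `T_i` are the transcendental lattices of `H²(X_i)(1)` (rank `3` or `≥ 5`,
Mumford–Tate groups `SO(T_i)`).

We assume that `T_i` has a *cusp*: for every `l` there is an element of `Γ` which acts on `T_i ⊗ ℚ_l`
as a unipotent matrix with Jordan blocks `3, 1, ..., 1`, and for almost all `l` there is an element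
which acts on `T_i ⊗ 𝔽_l` in this way. For instance, this holds if `k` has a place at which the
monodromy is of the form `exp(N)` with `N² ≠ 0`, `rank N = 2` (degenerations of type III in the
theory of K3 surfaces).

We prove that Q1 holds for the product `X` of the `X_i` if and only if it holds for the `X_i` and the
characters of `Λ²T_i` and `Λ²T_j` are different for `i ≠ j`, if and only if (with the same condition on
the characters) the Galois modules `T_i ⊗ ℚ_l` for all `l`, and `T_i ⊗ 𝔽_l` for almost all `l`, are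
irreducible under every subgroup of index at most `rank T_i`. In particular, for one `X` of this kind,
Q1 (which implies the Mumford–Tate conjecture) is equivalent to irreducibility properties of
`T ⊗ ℚ_l` and `T ⊗ 𝔽_l`. Unlike the criterion in `IntegralProducts` this is a condition on `T`, not on
`Λ²T`.

Idea: the conjugates of the given elements are Eichler transformations `E(x, w)`, where `x` runs
through the orbit `O` of an isotropic vector. A subspace `M` of `so(T)` which is stable under the group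
is stable under all `x ∧ w` and so under the Lie algebra which they generate. Two elements `x, y` of `O`
with `(x, y) ≠ 0` give `x ∧ y`, and `x ∧ z` is obtained from `x ∧ w` and `y ∧ z` when `(x, y) ≠ 0 = (x, z)`;
so one obtains everything if the graph on `O` with the edges `(x, y) ≠ 0` is connected. Its components
span orthogonal subspaces, hence there are at most `rank T` of them and the stabiliser of a component
is a subgroup of index at most `rank T` under which its span is stable.
-/

namespace Pool.Agent.Results.MP_2b5912_ag.CuspCriterion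

open Pool.Agent.Y127.I Pool.Agent.Results.MP_2b5912_ag.IntegralProducts

section

variable {Γ : Type} [Group Γ] [TopologicalSpace Γ]

/-- A unipotent matrix with Jordan blocks `3, 1, ..., 1`. -/
def IsCuspMatrix {F : Type} [Field F] {m : ℕ} (U : Matrix (Fin m) (Fin m) F) : Prop :=
  (U - 1) ^ 3 = 0 ∧ (U - 1) ^ 2 ≠ 0 ∧ (U - 1).rank = 2

/-- `T` has a cusp: for all `l` some element of `Γ` acts on `T ⊗ ℚ_l` as a unipotent matrix with Jordan
blocks `3, 1, ..., 1`, and for almost all `l` some element acts on `T ⊗ 𝔽_l` in this way. -/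
structure HasCusp (T : Sys Γ) : Prop where
  rat : ∀ (l : ℕ) [Fact l.Prime], ∃ γ,
    IsCuspMatrix ((T.mat l γ).map (PadicInt.Coe.ringHom : ℤ_[l] →+* ℚ_[l]))
  mod : ∃ L : ℕ, ∀ (l : ℕ) [Fact l.Prime], L ≤ l → ∃ γ,
    IsCuspMatrix ((T.mat l γ).map (PadicInt.toZMod : ℤ_[l] →+* ZMod l))

/-- For a homomorphism `f` from `ℤ_l` to a field `F`: no proper subspace of `T ⊗ F` is stable under a
subgroup of `Γ` of index at most the rank of `T`. -/
def StrIrr (T : Sys Γ) (l : ℕ) [Fact l.Prime] {F : Type} [Field F] (f : ℤ_[l] →+* F) : Prop :=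
  ∀ Δ : Subgroup Γ, Δ.index ≠ 0 → Δ.index ≤ T.n → ∀ W : Submodule F (Fin T.n → F),
    (∀ γ ∈ Δ, ∀ x ∈ W, ((T.mat l γ).map f).mulVec x ∈ W) → W = ⊥ ∨ W = ⊤

/-- `T ⊗ ℚ_l` for all `l` and `T ⊗ 𝔽_l` for almost all `l` are irreducible under the subgroups of index
at most the rank of `T`. -/
structure StronglyIrreducible (T : Sys Γ) : Prop where
  rat : ∀ (l : ℕ) [Fact l.Prime], StrIrr T l (PadicInt.Coe.ringHom : ℤ_[l] →+* ℚ_[l])
  mod : ∃ L : ℕ, ∀ (l : ℕ) [Fact l.Prime], L ≤ l →
    StrIrr T l (PadicInt.toZMod : ℤ_[l] →+* ZMod l)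

/-- The homomorphism to the matrices over `F`. -/
noncomputable def rhoF (T : Sys Γ) (l : ℕ) [Fact l.Prime] {F : Type} [Field F]
    (f : ℤ_[l] →+* F) : Γ →* Matrix (Fin T.n) (Fin T.n) F :=
  (f.mapMatrix (m := Fin T.n)).toMonoidHom.comp ((Units.coeHom _).comp (T.ρ l))

theorem rhoF_apply (T : Sys Γ) (l : ℕ) [Fact l.Prime] {F : Type} [Field F]
    (f : ℤ_[l] →+* F) (γ : Γ) : rhoF T l f γ = (T.mat l γ).map f := rfl

theorem rhoF_isom (T : Sys Γ) (l : ℕ) [Fact l.Prime] {F : Type} [Field F]
    (f : ℤ_[l] →+* F) (γ : Γ) : (rhoF T l f γ).transpose * T.B.map (Int.cast : ℤ → F) *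
      rhoF T l f γ = T.B.map (Int.cast : ℤ → F) := by
  have h1 := ((T.mem l γ).1)
  have h2 := congrArg (fun x : Matrix (Fin T.n) (Fin T.n) ℤ_[l] => x.map f) h1
  simp only [Matrix.map_mul, map_cast f T.B] at h2
  exact h2

theorem adIrr_of_cusp (T : Sys Γ) (l : ℕ) [Fact l.Prime] {F : Type} [Field F]
    (f : ℤ_[l] →+* F) (h24 : (24 : F) ≠ 0) (hd : (T.B.map (Int.cast : ℤ → F)).det ≠ 0)
    (hc : ∃ γ, IsCuspMatrix ((T.mat l γ).map f)) (hs : StrIrr T l f) : AdIrr T l f := by
  intro M hM hst
  exact irr_of_cusp (symm_cast T.symm) hd h24 T.rank (ρ := rhoF T l f) (rhoF_isom T l f) hs hc hM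
    hst

theorem crit_of_cusp {T : Sys Γ} (hc : HasCusp T) (hs : StronglyIrreducible T) : Crit T := by
  refine ⟨?_, ?_, ?_, ?_⟩
  · intro l hl
    refine adIrr_of_cusp T l _ (by norm_num) ?_ (hc.rat l) (hs.rat l)
    rw [det_cast]
    exact_mod_cast T.det_ne
  · intro l hl hfin
    obtain ⟨γ, hγ⟩ := hc.rat l
    have hd : (T.B.map (Int.cast : ℤ → ℚ_[l])).det ≠ 0 := by
      rw [det_cast]
      exact_mod_cast T.det_ne
    obtain ⟨e, a, hea, he, hEe⟩ := exists_Ee_matrix (symm_cast T.symm) hd two_ne_zero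
      (rhoF_isom T l (PadicInt.Coe.ringHom : ℤ_[l] →+* ℚ_[l]) γ) hγ
    have hinj : Function.Injective fun k : ℕ => T.ρ l (γ ^ k) := by
      intro j k hjk
      have hjk' : T.ρ l (γ ^ j) = T.ρ l (γ ^ k) := hjk
      have h1 : rhoF T l (PadicInt.Coe.ringHom : ℤ_[l] →+* ℚ_[l]) (γ ^ j) =
          rhoF T l (PadicInt.Coe.ringHom : ℤ_[l] →+* ℚ_[l]) (γ ^ k) := by
        rw [rhoF_apply, rhoF_apply]
        unfold Sys.mat
        rw [hjk']
      rw [map_pow, map_pow] at h1
      have h2 := congrArg Matrix.toLin' h1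
      rw [toLin_pow, toLin_pow, hEe,
        ← Ee_nat (bil_symm (symm_cast T.symm)) two_ne_zero hea,
        ← Ee_nat (bil_symm (symm_cast T.symm)) two_ne_zero hea] at h2
      exact_mod_cast Ee_inj (bil_symm (symm_cast T.symm)) hea he h2
    exact (Set.infinite_range_of_injective hinj).mono (by rintro _ ⟨k, rfl⟩; exact ⟨_, rfl⟩) hfin
  · obtain ⟨L, hL⟩ := hc.mod
    obtain ⟨L', hL'⟩ := hs.mod
    refine ⟨L + L' + T.B.det.natAbs + 7, fun l hl hlL => ?_⟩
    refine adIrr_of_cusp T l _ (p_24 (by omega)) ?_ (hL l (by omega)) (hL' l (by omega))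
    rw [det_cast]
    exact int_cast_ne T.det_ne (by omega)
  · obtain ⟨L, hL⟩ := hc.mod
    refine ⟨L + 3, fun l hl hlL => ?_⟩
    obtain ⟨γ, hγ⟩ := hL l (by omega)
    refine ⟨γ, ?_, pow_p_eq_one hγ.1 (by omega) (by norm_num)⟩
    intro h1
    apply hγ.2.1
    rw [h1, sub_self]
    exact zero_pow two_ne_zero

theorem strIrr_of_bounded {T : Sys Γ} (h : Bounded T) : StronglyIrreducible T := by
  obtain ⟨C, hC⟩ := h
  have hn : 3 ≤ T.n := by have := T.rank; omega
  refine ⟨fun l hl => ?_, ⟨C + T.B.det.natAbs + T.n + 7, fun l hl hlL => ?_⟩⟩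
  · exact sirr_padic (symm_cast T.symm) (det_cast_ne T.det_ne) hn (hC l).1 (hC l).2
  · refine sirr_mod (A := T.B.map (Int.cast : ℤ → ZMod l)) (symm_cast T.symm)
      (by rw [det_cast]; exact int_cast_ne T.det_ne (by omega)) hn (by omega) (by omega)
      (ρ := rhoF T l (PadicInt.toZMod : ℤ_[l] →+* ZMod l)) ?_
    intro e v hev
    exact crit_E T.symm T.det_ne T.rank (hC l).1 (hC l).2 (by omega) (by omega) hev

end

/-- **Theorem.** Let `Γ` be a compact group and `T_i` finitely many systems of orthogonal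
representations with cusps, such that the Frobenius elements are dense (even if finitely many primes
are omitted). The following are equivalent:
(1) the index of the image of `Γ` in `∏ SO(T_i)(ℤ_l)` is bounded independently of `l`;
(2) for every `i` the index of the image of `Γ` in `SO(T_i)(ℤ_l)` is bounded independently of `l`, and
for `i ≠ j` the characters of `Λ²T_i` and `Λ²T_j` are different for some `l`;
(3) for every `i` the modules `T_i ⊗ ℚ_l` for all `l` and `T_i ⊗ 𝔽_l` for almost all `l` are irreducible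
under the subgroups of index at most `rank T_i`, and for `i ≠ j` the characters of `Λ²T_i` and `Λ²T_j`
are different for some `l`. -/
theorem result (Γ : Type) [Group Γ] [TopologicalSpace Γ] [CompactSpace Γ] (ι : Type) [Finite ι]
    (T : ι → Sys Γ) (hF : ∀ S : Finset ℕ, Dense {γ : Γ | ∃ p, p ∉ S ∧ Frob T p γ})
    (hc : ∀ i, HasCusp (T i)) :
    List.TFAE [BoundedProd T, (∀ i, Bounded (T i)) ∧ Different T,
      (∀ i, StronglyIrreducible (T i)) ∧ Different T] := by
  have h := IntegralProducts.result Γ ι T hF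
  have h31 : (∀ i, Crit (T i)) ∧ Different T → BoundedProd T := (h.out 2 0).1
  tfae_have 1 ↔ 2 := h.out 0 1
  tfae_have 2 → 3 := fun h => ⟨fun i => strIrr_of_bounded (h.1 i), h.2⟩
  tfae_have 3 → 1 := fun h' => h31 ⟨fun i => crit_of_cusp (hc i) (h'.1 i), h'.2⟩
  tfae_finish

end Pool.Agent.Results.MP_2b5912_ag.CuspCriterion
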