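import Pool.Agent.Results.MP_2b5912_ag.IntegralProducts
import Pool.Agent.Y127.I.Gen3

/-!
# Bounded index and irreducibility for systems with generic Frobenius polynomials

The notation is that of the file `IntegralProducts` of this folder: `Γ` is the Galois group of a
sufficiently large finite extension of `k`, and `T_i` are the transcendental lattices of `H²(X_i)(1)`
(Mumford–Tate groups `SO(T_i)`); here their ranks are odd and at least `3`.

We assume that there are two Frobenius elements, at places of different residue characteristics `p`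
and `q`, whose characteristic polynomials `P` on `T_i`, which have rational coefficients independent
of `l`, are *generic*: `1` is a simple root of `P`, and the product of two of the other roots is never
one of the other roots. As `1` is always a root (the rank is odd and the determinant is `1`), this is
true for almost all elements of `SO(T_i)`; it can be checked by counting points.

We prove that Q1 holds for the product `X` of the `X_i` if and only if the Galois modules
`T_i ⊗ ℚ_l` for all `l`, and `T_i ⊗ 𝔽_l` for almost all `l`, are irreducible under all subgroups of `Γ` of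
index at most `5 ^ (2 n²)`, `n = rank T_i`, and for `i ≠ j` the modules `Λ²T_i` and `Λ²T_j` have different
characters. In particular, for one such `X`, Q1 (which implies the Mumford–Tate conjecture) is
equivalent to the irreducibility properties of `T ⊗ ℚ_l` and `T ⊗ 𝔽_l`. Nothing is assumed about the
degeneration of `X`, and only irreducibility over `ℚ_l` and `𝔽_l` (not absolute irreducibility) is
needed.

Idea: (1) Let `F` be a generic isometry of `V = T ⊗ K` with the fixed vector `e`, and let `W` be the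
orthogonal complement of `e`. Then `so(V) = (W ∧ e) ⊕ so(W)`, and `F` has no common eigenvalue on
`W ∧ e ≅ W` and on `so(W) = Λ²W`. Hence every subspace `M` of `so(V)` which is stable under `F`
contains with `X` also `X(e) ∧ e`, and this means that it is stable under the reflection in `e`,
which does not belong to the group. If `M` is stable under `Γ` then it is stable under the
reflections in all vectors `γ(e)`, and the theorem about reflections used in `NodalIntegral` shows
that `M = 0` or `M = so(V)`.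
(2) The condition on the roots of `P` is inherited by the field `ℚ_l` for all `l ≠ p` and by `𝔽_l` for
almost all `l`: the ideal of `ℤ[x, y]` generated by `R(x)`, `R(y)`, `R(xy)` contains a positive integer,
where `P = (X - 1) R` up to a constant.
(3) If the image over `ℤ_l` is finite, or the image modulo `l` has an order prime to `l`, then by
Jordan's theorem a subgroup of index at most `5 ^ (2 n²)` has an abelian image. Its elements `g`
satisfy `g = g⁻¹`, since `g - g⁻¹` is skew and has a kernel as `n` is odd, so it acts by scalars.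
-/

namespace Pool.Agent.Results.MP_2b5912_ag.FrobeniusCriterion

open Polynomial Pool.Agent.Y127.I Pool.Agent.Results.MP_2b5912_ag.IntegralProducts

/-- `1` is a simple root of `P`, and the product of two roots different from `1` is not a root
different from `1`. -/
def IsGeneric (P : ℚ[X]) : Prop :=
  P.eval 1 = 0 ∧ P.derivative.eval 1 ≠ 0 ∧
    ∀ b c : ℂ, b ≠ 1 → c ≠ 1 → b * c ≠ 1 → aeval b P = 0 → aeval c P = 0 → aeval (b * c) P ≠ 0

section

variable {Γ : Type} [Group Γ] [TopologicalSpace Γ]

/-- Some element of `Γ` has on all `T ⊗ ℚ_l`, `l ≠ p`, the same characteristic polynomial, which has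
rational coefficients and is generic. -/
def GenericFrob (T : Sys Γ) (p : ℕ) : Prop :=
  ∃ P : ℚ[X], IsGeneric P ∧ ∃ γ : Γ, ∀ (l : ℕ) [Fact l.Prime], l ≠ p →
    (T.mat l γ).charpoly.map (PadicInt.Coe.ringHom : ℤ_[l] →+* ℚ_[l]) = P.map (algebraMap ℚ ℚ_[l])

/-- The rank of `T` is odd and `T` has generic Frobenius elements at two different `p` and `q`. -/
structure GenericSys (T : Sys Γ) : Prop where
  odd : Odd T.n
  frob : ∃ p q : ℕ, p ≠ q ∧ GenericFrob T p ∧ GenericFrob T q

/-- For a homomorphism `f` from `ℤ_l` to a field `F`: no proper subspace of `T ⊗ F` is stable under a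
subgroup of `Γ` of index at most `N`. -/
def IrrUpTo (T : Sys Γ) (N l : ℕ) [Fact l.Prime] {F : Type} [Field F] (f : ℤ_[l] →+* F) : Prop :=
  ∀ Δ : Subgroup Γ, Δ.index ≠ 0 → Δ.index ≤ N → ∀ W : Submodule F (Fin T.n → F),
    (∀ γ ∈ Δ, ∀ x ∈ W, ((T.mat l γ).map f).mulVec x ∈ W) → W = ⊥ ∨ W = ⊤

/-- `T ⊗ ℚ_l` for all `l` and `T ⊗ 𝔽_l` for almost all `l` are irreducible under the subgroups of index
at most `N`. -/
structure Irreducible (T : Sys Γ) (N : ℕ) : Prop where
  rat : ∀ (l : ℕ) [Fact l.Prime], IrrUpTo T N l (PadicInt.Coe.ringHom : ℤ_[l] →+* ℚ_[l])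
  mod : ∃ L : ℕ, ∀ (l : ℕ) [Fact l.Prime], L ≤ l →
    IrrUpTo T N l (PadicInt.toZMod : ℤ_[l] →+* ZMod l)

/-! ### The proof -/

/-- The homomorphism to the matrices over `F`. -/
noncomputable def rhoF (T : Sys Γ) (l : ℕ) [Fact l.Prime] {F : Type} [Field F]
    (f : ℤ_[l] →+* F) : Γ →* Matrix (Fin T.n) (Fin T.n) F :=
  (f.mapMatrix (m := Fin T.n)).toMonoidHom.comp ((Units.coeHom _).comp (T.ρ l))

theorem rhoF_isom (T : Sys Γ) (l : ℕ) [Fact l.Prime] {F : Type} [Field F]
    (f : ℤ_[l] →+* F) (γ : Γ) : (rhoF T l f γ).transpose * T.B.map (Int.cast : ℤ → F) *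
      rhoF T l f γ = T.B.map (Int.cast : ℤ → F) := by
  have h1 := ((T.mem l γ).1)
  have h2 := congrArg (fun x : Matrix (Fin T.n) (Fin T.n) ℤ_[l] => x.map f) h1
  simp only [Matrix.map_mul, map_cast f T.B] at h2
  exact h2

theorem le_bound (n : ℕ) : n ≤ 5 ^ (2 * (n * n)) := by
  rcases Nat.eq_zero_or_pos n with rfl | hn
  · exact Nat.zero_le _
  · have h1 : n < 5 ^ n := Nat.lt_pow_self (by norm_num)
    have h2 : n ≤ 2 * (n * n) := by nlinarith
    exact h1.le.trans (Nat.pow_le_pow_right (by norm_num) h2)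

theorem p_two' {l : ℕ} [hl : Fact l.Prime] (h : 2 < l) : (2 : ZMod l) ≠ 0 := by
  intro h0
  have h1 : ((2 : ℕ) : ZMod l) = 0 := by exact_mod_cast h0
  rw [ZMod.natCast_eq_zero_iff] at h1
  have := Nat.le_of_dvd (by norm_num) h1
  omega

theorem exists_gen {T : Sys Γ} (hg : GenericSys T) (l : ℕ) [Fact l.Prime] :
    ∃ γ, IsGen (rhoF T l (PadicInt.Coe.ringHom : ℤ_[l] →+* ℚ_[l]) γ) := by
  obtain ⟨p, q, hpq, ⟨P, hP, γ, hγ⟩, ⟨Q, hQ, δ, hδ⟩⟩ := hg.frob
  by_cases h : l = p
  · exact ⟨δ, isGen_rat (P := Q) hQ (hδ l (by rw [h]; exact hpq))⟩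
  · exact ⟨γ, isGen_rat (P := P) hP (hγ l h)⟩

theorem exists_gen_mod {T : Sys Γ} (hg : GenericSys T) : ∃ L : ℕ, ∀ (l : ℕ) [Fact l.Prime], L ≤ l →
    ∃ γ, IsGen (rhoF T l (PadicInt.toZMod : ℤ_[l] →+* ZMod l) γ) := by
  obtain ⟨p, q, hpq, ⟨P, hP, γ, hγ⟩, _⟩ := hg.frob
  obtain ⟨K, hK⟩ := isGen_mod (P := P) hP
  exact ⟨K + p + 1, fun l hl hlL => ⟨γ, hK l (by omega) _ _ (hγ l (by omega))⟩⟩

theorem crit_of_generic {T : Sys Γ} (hg : GenericSys T) (hs : Irreducible T (5 ^ (2 * T.n ^ 2))) :
    Crit T := by
  have hn3 : 2 ≤ T.n := by have := T.rank; omega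
  rw [sq] at hs
  refine ⟨?_, ?_, ?_, ?_⟩
  · intro l hl M hM hst
    refine irr_of_gen (A := T.B.map (Int.cast : ℤ → ℚ_[l])) (symm_cast T.symm) ?_ two_ne_zero
      (ρ := rhoF T l (PadicInt.Coe.ringHom : ℤ_[l] →+* ℚ_[l])) (rhoF_isom _ _ _) ?_
      (exists_gen hg l) hM hst
    · rw [det_cast]
      exact_mod_cast T.det_ne
    · intro Δ h0 hi
      exact hs.rat l Δ h0 (hi.trans (le_bound _))
  · intro l hl
    rcases inf_or_abelian (T.ρ l) with h | ⟨D, hD0, hDJ, hD⟩
    · exact h
    · exfalso
      refine odd_not_abelian (A := T.B.map (Int.cast : ℤ → ℚ_[l])) ?_ two_ne_zero hg.odd hn3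
        (ρ := rhoF T l (PadicInt.Coe.ringHom : ℤ_[l] →+* ℚ_[l])) (rhoF_isom _ _ _) (D := D) ?_
        (hs.rat l D hD0 hDJ)
      · rw [det_cast]
        exact_mod_cast T.det_ne
      · intro a ha b hb
        have h1 := congrArg (fun u : GL (Fin T.n) ℤ_[l] =>
          (PadicInt.Coe.ringHom (p := l)).mapMatrix (u : Matrix (Fin T.n) (Fin T.n) ℤ_[l]))
          (hD a ha b hb)
        simp only [Units.val_mul, map_mul] at h1
        exact h1
  · obtain ⟨L, hL⟩ := hs.mod
    obtain ⟨L', hL'⟩ := exists_gen_mod hg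
    refine ⟨L + L' + T.B.det.natAbs + 7, fun l hl hlL M hM hst => ?_⟩
    refine irr_of_gen (A := T.B.map (Int.cast : ℤ → ZMod l)) (symm_cast T.symm) ?_
      (p_two' (by omega)) (ρ := rhoF T l (PadicInt.toZMod : ℤ_[l] →+* ZMod l))
      (rhoF_isom _ _ _) ?_ (hL' l (by omega)) hM hst
    · rw [det_cast]
      exact int_cast_ne T.det_ne (by omega)
    · intro Δ h0 hi
      exact hL l (by omega) Δ h0 (hi.trans (le_bound _))
  · obtain ⟨L, hL⟩ := hs.mod
    refine ⟨L + T.B.det.natAbs + 7, fun l hl hlL => ?_⟩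
    rcases ord_or_abelian (T.ρ l) with ⟨γ, hγ1, hγ2⟩ | ⟨D, hD0, hDJ, hD⟩
    · exact ⟨γ, hγ1, hγ2⟩
    · exfalso
      refine odd_not_abelian (A := T.B.map (Int.cast : ℤ → ZMod l)) ?_ (p_two' (by omega)) hg.odd
        hn3 (ρ := rhoF T l (PadicInt.toZMod : ℤ_[l] →+* ZMod l)) (rhoF_isom _ _ _) (D := D)
        (fun a ha b hb => hD a ha b hb) (hL l (by omega) D hD0 hDJ)
      rw [det_cast]
      exact int_cast_ne T.det_ne (by omega)

theorem irreducible_of_bounded {T : Sys Γ} (h : Bounded T) (N : ℕ) : Irreducible T N := by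
  obtain ⟨C, hC⟩ := h
  have hn3 : 3 ≤ T.n := by have := T.rank; omega
  refine ⟨fun l hl Δ h0 hi W hW => ?_, ⟨C + T.B.det.natAbs + T.n + N + 7,
    fun l hl hlL Δ h0 hi W hW => ?_⟩⟩
  · exact sirrN_padic (symm_cast T.symm) (det_cast_ne T.det_ne) hn3 (hC l).1 (hC l).2 h0 hW
  · refine sirrN_mod (A := T.B.map (Int.cast : ℤ → ZMod l)) (symm_cast T.symm)
      (by rw [det_cast]; exact int_cast_ne T.det_ne (by omega)) hn3 (by omega) (by omega)
      (ρ := rhoF T l (PadicInt.toZMod : ℤ_[l] →+* ZMod l)) ?_ h0 (by omega) hW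
    intro e v hev
    exact crit_E T.symm T.det_ne T.rank (hC l).1 (hC l).2 (by omega) (by omega) hev

end

/-- **Theorem.** Let `Γ` be a compact group and `T_i` finitely many systems of orthogonal
representations of odd rank `≥ 3` with generic Frobenius elements at two different primes, such that
the Frobenius elements are dense (even if finitely many primes are omitted). The following are
equivalent:
(1) the index of the image of `Γ` in `∏ SO(T_i)(ℤ_l)` is bounded independently of `l`;
(2) for every `i` the index of the image of `Γ` in `SO(T_i)(ℤ_l)` is bounded independently of `l`, and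
for `i ≠ j` the characters of `Λ²T_i` and `Λ²T_j` are different for some `l`;
(3) for every `i` and `N` the modules `T_i ⊗ ℚ_l` for all `l` and `T_i ⊗ 𝔽_l` for almost all `l` are
irreducible under the subgroups of `Γ` of index at most `N`, and the same condition on the characters;
(4) the same for `N = 5 ^ (2 n²)`, `n = rank T_i`, and the same condition on the characters. -/
theorem result (Γ : Type) [Group Γ] [TopologicalSpace Γ] [CompactSpace Γ] (ι : Type) [Finite ι]
    (T : ι → Sys Γ) (hF : ∀ S : Finset ℕ, Dense {γ : Γ | ∃ p, p ∉ S ∧ Frob T p γ})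
    (hg : ∀ i, GenericSys (T i)) :
    List.TFAE [BoundedProd T, (∀ i, Bounded (T i)) ∧ Different T,
      (∀ i N, Irreducible (T i) N) ∧ Different T,
      (∀ i, Irreducible (T i) (5 ^ (2 * (T i).n ^ 2))) ∧ Different T] := by
  have h := IntegralProducts.result Γ ι T hF
  have h31 : (∀ i, Crit (T i)) ∧ Different T → BoundedProd T := (h.out 2 0).1
  tfae_have 1 ↔ 2 := h.out 0 1
  tfae_have 2 → 3 := fun h => ⟨fun i => irreducible_of_bounded (h.1 i), h.2⟩
  tfae_have 3 → 4 := fun h => ⟨fun i => h.1 i _, h.2⟩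
  tfae_have 4 → 1 := fun h' => h31 ⟨fun i => crit_of_generic (hg i) (h'.1 i), h'.2⟩
  tfae_finish

end Pool.Agent.Results.MP_2b5912_ag.FrobeniusCriterion
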