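import Pool.Agent.Y127.I.Diff

/-!
# Bounded index of Galois images in products of orthogonal groups

Let `k` be a field finitely generated over `ℚ`, `Γ` the Galois group of a sufficiently large finite
extension of `k`, and `X_1, ..., X_r` smooth projective varieties over `k`. Let `T_i` be the
transcendental lattice of `H²(X_i)(1)`, of rank `3` or `≥ 5`, with its intersection form. `Γ` acts on
`T_i ⊗ ℤ_l` through `SO(T_i)(ℤ_l)`. If the Mumford–Tate group of `T_i` is as large as possible, that
is `SO(T_i)`, then Q1 for `X_i` says that the index of the image in `SO(T_i)(ℤ_l)` is bounded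
independently of `l` (here and below it is assumed that the Galois group acts trivially on the
algebraic classes, and the sum of `T_i` and the algebraic classes has a finite index in `H`, so it
changes the index by a bounded factor only). If `X` is the product of the `X_i` and `H¹(X_i) = 0`
(or any variety such that `H²(X)` is the sum of the `T_i` and of algebraic classes), and the
Mumford–Tate group of `X` is the product of the `SO(T_i)`, Q1 for `X` says that the index of the image
in `∏ SO(T_i)(ℤ_l)` is bounded.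

We prove that the following statements are equivalent: Q1 for `X`; Q1 for all the `X_i`, and the
Galois modules `Λ²T_i` and `Λ²T_j` have different characters for `i ≠ j` (and one `l`); the
criterion `Crit` for all the `X_i`, that is `Λ²T_i ⊗ ℚ_l` is irreducible and the image is infinite for
all `l`, and for almost all `l` the module `Λ²T_i ⊗ 𝔽_l` is irreducible and the order of the image of
`Γ` modulo `l` is divisible by `l`, and the same condition on the characters.

The theorem is about an abstract compact group `Γ` with systems of representations on orthogonal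
lattices. The input from arithmetic is the compatibility: there are elements `γ` (Frobenius elements
at places of residue characteristic `p`) for which the traces on `Λ²T_i ⊗ ℚ_l` are rational and
independent of `l ≠ p`, and they are dense in `Γ` even if finitely many `p` are omitted
(Chebotarev; Weil conjectures).

Idea for large `l`: let `G` be the image of `Γ` modulo `l` in `∏ SO(T_i)(𝔽_l)` and `L` the span of the
logarithms of the elements of `G` of `l`-power order. It is a stable subspace of `⊕ so(T_i ⊗ 𝔽_l)`; by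
the criterion and Goursat's lemma (the traces of a Frobenius element are different modulo `l`) it is
everything. A counting lemma (a polynomial in the exponents which is not identically zero) shows that
products of powers of `d = dim L` elements of `G` take `≥ c l^d` values with `c > 0`
independent of `l`, so `G` has bounded index in `∏ SO(T_i)(𝔽_l)`. The `l`-th powers of elements of order
`l` show that the kernel of the reduction is contained in the image. No classification of the
subgroups of `GL_n(𝔽_l)` and no theorem about algebraic groups is used. For the remaining `l` the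
tangent space of the image over `ℚ_l` is everything for the same reason.
-/

namespace Pool.Agent.Results.MP_2b5912_ag.IntegralProducts

open Pool.Agent.Y127.I

/-- A lattice `T` with a nondegenerate symmetric form and, for every prime number `l`, a continuous
action of `Γ` on `T ⊗ ℤ_l` by isometries of determinant `1`. -/
structure Sys (Γ : Type) [Group Γ] [TopologicalSpace Γ] where
  /-- the rank of `T` -/
  n : ℕ
  /-- the matrix of the form -/
  B : Matrix (Fin n) (Fin n) ℤ
  symm : B.IsSymm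
  det_ne : B.det ≠ 0
  rank : n = 3 ∨ 5 ≤ n
  /-- the action -/
  ρ : ∀ (l : ℕ) [Fact l.Prime], Γ →* GL (Fin n) ℤ_[l]
  cont : ∀ (l : ℕ) [Fact l.Prime], Continuous (ρ l)
  mem : ∀ (l : ℕ) [Fact l.Prime] (γ : Γ), ρ l γ ∈ SOg (B.map (Int.cast : ℤ → ℤ_[l]))

section

variable {Γ : Type} [Group Γ] [TopologicalSpace Γ]

/-- The matrix of `γ` on `T ⊗ ℤ_l`. -/
noncomputable def Sys.mat (T : Sys Γ) (l : ℕ) [Fact l.Prime] (γ : Γ) : Matrix (Fin T.n) (Fin T.n) ℤ_[l] :=
  (T.ρ l γ : GL (Fin T.n) ℤ_[l])

/-- `tr(γ)² - tr(γ²)`, twice the trace of `γ` on `Λ²(T ⊗ ℤ_l)`. -/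
noncomputable def Sys.tr2 (T : Sys Γ) (l : ℕ) [Fact l.Prime] (γ : Γ) : ℤ_[l] :=
  (T.mat l γ).trace ^ 2 - (T.mat l γ * T.mat l γ).trace

/-- The trace of `γ` on all `Λ²T_i ⊗ ℚ_l` is rational and independent of `l ≠ p`. -/
def Frob {ι : Type} (T : ι → Sys Γ) (p : ℕ) (γ : Γ) : Prop :=
  ∀ i, ∃ c : ℚ, ∀ (l : ℕ) [Fact l.Prime], l ≠ p → (((T i).tr2 l γ : ℤ_[l]) : ℚ_[l]) = c

/-- For a homomorphism `f` from `ℤ_l` to a field `F`: the Lie algebra `so(T ⊗ F)`, which is
isomorphic to `Λ²(T ⊗ F)`, has no nontrivial `Γ`-stable subspace. -/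
def AdIrr (T : Sys Γ) (l : ℕ) [Fact l.Prime] {F : Type} [Field F] (f : ℤ_[l] →+* F) : Prop :=
  ∀ M : Submodule F (Matrix (Fin T.n) (Fin T.n) F), M ≤ soM (T.B.map (Int.cast : ℤ → F)) →
    (∀ γ, ∀ X ∈ M, (T.mat l γ).map f * X * (T.mat l γ⁻¹).map f ∈ M) →
    M = ⊥ ∨ M = soM (T.B.map (Int.cast : ℤ → F))

/-- The criterion for one lattice. -/
structure Crit (T : Sys Γ) : Prop where
  irr : ∀ (l : ℕ) [Fact l.Prime], AdIrr T l (PadicInt.Coe.ringHom : ℤ_[l] →+* ℚ_[l])
  inf : ∀ (l : ℕ) [Fact l.Prime], (Set.range (T.ρ l)).Infinite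
  irr_mod : ∃ L : ℕ, ∀ (l : ℕ) [Fact l.Prime], L ≤ l →
    AdIrr T l (PadicInt.toZMod : ℤ_[l] →+* ZMod l)
  ord_mod : ∃ L : ℕ, ∀ (l : ℕ) [Fact l.Prime], L ≤ l →
    ∃ γ, (T.mat l γ).map (PadicInt.toZMod (p := l)) ≠ 1 ∧
      (T.mat l γ).map (PadicInt.toZMod (p := l)) ^ l = 1

/-- The index of the image of `Γ` in `SO(T)(ℤ_l)` is finite and bounded independently of `l`. -/
def Bounded (T : Sys Γ) : Prop :=
  ∃ C : ℕ, ∀ (l : ℕ) [Fact l.Prime],
    (T.ρ l).range.relIndex (SOg (T.B.map (Int.cast : ℤ → ℤ_[l]))) ≠ 0 ∧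
      (T.ρ l).range.relIndex (SOg (T.B.map (Int.cast : ℤ → ℤ_[l]))) ≤ C

/-- The index of the image of `Γ` in `∏ SO(T_i)(ℤ_l)` is finite and bounded independently of `l`. -/
def BoundedProd {ι : Type} (T : ι → Sys Γ) : Prop :=
  ∃ C : ℕ, ∀ (l : ℕ) [Fact l.Prime],
    (MonoidHom.pi fun i => (T i).ρ l).range.relIndex
      (Subgroup.pi Set.univ fun i => SOg ((T i).B.map (Int.cast : ℤ → ℤ_[l]))) ≠ 0 ∧
    (MonoidHom.pi fun i => (T i).ρ l).range.relIndex
      (Subgroup.pi Set.univ fun i => SOg ((T i).B.map (Int.cast : ℤ → ℤ_[l]))) ≤ C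

/-- For `i ≠ j` the characters of `Λ²T_i ⊗ ℤ_l` and `Λ²T_j ⊗ ℤ_l` are different for some `l`. -/
def Different {ι : Type} (T : ι → Sys Γ) : Prop :=
  ∀ i j, i ≠ j → ∃ (l : ℕ) (_ : Fact l.Prime) (γ : Γ), (T i).tr2 l γ ≠ (T j).tr2 l γ

theorem crit_of_bounded {T : Sys Γ} (h : Bounded T) : Crit T := by
  obtain ⟨C, hC⟩ := h
  refine ⟨?_, ?_, ?_, ?_⟩
  · intro l hl M hM hst
    exact crit_irrQ T.symm T.det_ne T.rank (hC l).1 (hC l).2 hM hst
  · intro l hl
    exact crit_inf T.symm T.det_ne T.rank (hC l).1 (hC l).2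
  · refine ⟨C + T.B.det.natAbs + 7, fun l hl hlL M hM hst => ?_⟩
    exact crit_irrF T.symm T.det_ne T.rank (hC l).1 (hC l).2 (by omega) (by omega) (by omega)
      hM hst
  · refine ⟨C + T.B.det.natAbs + 7, fun l hl hlL => ?_⟩
    exact crit_ord T.symm T.det_ne T.rank (hC l).1 (hC l).2 (by omega) (by omega) (by omega)

theorem tr2_cont (T : Sys Γ) (l : ℕ) [Fact l.Prime] : Continuous (T.tr2 l) := by
  have h1 : Continuous (T.mat l) := Units.continuous_val.comp (T.cont l)
  unfold Sys.tr2
  exact ((Continuous.matrix_trace h1).pow 2).sub (Continuous.matrix_trace (h1.matrix_mul h1))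

/-- Frobenius elements with different traces. -/
theorem exists_frob {ι : Type} {T : ι → Sys Γ}
    (hF : ∀ S : Finset ℕ, Dense {γ : Γ | ∃ p, p ∉ S ∧ Frob T p γ}) {i j : ι}
    (hne : ∃ (l : ℕ) (_ : Fact l.Prime) (γ : Γ), (T i).tr2 l γ ≠ (T j).tr2 l γ) (p₀ : ℕ) :
    ∃ (p : ℕ) (γ : Γ) (c d : ℚ), p ≠ p₀ ∧ c ≠ d ∧
      (∀ (l : ℕ) [Fact l.Prime], l ≠ p → (((T i).tr2 l γ : ℤ_[l]) : ℚ_[l]) = c) ∧
      (∀ (l : ℕ) [Fact l.Prime], l ≠ p → (((T j).tr2 l γ : ℤ_[l]) : ℚ_[l]) = d) := by
  obtain ⟨l, hl, γ₀, hγ₀⟩ := hne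
  have hopen : IsOpen {γ : Γ | (T i).tr2 l γ ≠ (T j).tr2 l γ} :=
    isOpen_ne_fun (tr2_cont (T i) l) (tr2_cont (T j) l)
  obtain ⟨γ, hγ, p, hp, hfr⟩ := (hF {l, p₀}).inter_open_nonempty _ hopen ⟨γ₀, hγ₀⟩
  rw [Finset.mem_insert, Finset.mem_singleton, not_or] at hp
  obtain ⟨c, hc⟩ := hfr i
  obtain ⟨d, hd⟩ := hfr j
  refine ⟨p, γ, c, d, hp.2, ?_, hc, hd⟩
  rintro rfl
  apply hγ
  apply PadicInt.ext
  rw [hc l (Ne.symm hp.1), hd l (Ne.symm hp.1)]

theorem bounded_of_crit [CompactSpace Γ] {ι : Type} [Fintype ι] [DecidableEq ι] {T : ι → Sys Γ}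
    (hF : ∀ S : Finset ℕ, Dense {γ : Γ | ∃ p, p ∉ S ∧ Frob T p γ})
    (hne : Different T) (h : ∀ i, Crit (T i)) : BoundedProd T := by
  classical
  -- every prime
  have hsmall : ∀ l : ℕ, ∃ C : ℕ, ∀ _ : Fact l.Prime,
      (MonoidHom.pi fun i => (T i).ρ l).range.relIndex
      (Subgroup.pi Set.univ fun i => SOg ((T i).B.map (Int.cast : ℤ → ℤ_[l]))) ≠ 0 ∧
    (MonoidHom.pi fun i => (T i).ρ l).range.relIndex
      (Subgroup.pi Set.univ fun i => SOg ((T i).B.map (Int.cast : ℤ → ℤ_[l]))) ≤ C := by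
    intro l
    by_cases hl : l.Prime
    · haveI : Fact l.Prime := ⟨hl⟩
      obtain ⟨C, hC⟩ := cosets_small (n := fun i => (T i).n)
        (A := fun i => (T i).B.map (Int.cast : ℤ → ℤ_[l])) (r := toM fun i => (T i).ρ l)
        (toM_cont fun i => (T i).cont l) (fun i => symm_cast (T i).symm)
        (fun i => det_cast_ne (T i).det_ne) (fun γ i => ((T i).mem l γ).1)
        (by
          intro i M hM hst
          have h1 := map_cast (PadicInt.Coe.ringHom (p := l)) (T i).B
          have h2 : cq (n := fun i => (T i).n) (fun i => (T i).B.map (Int.cast : ℤ → ℤ_[l])) i =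
            (T i).B.map (Int.cast : ℤ → ℚ_[l]) := h1
          rw [h2] at hM ⊢
          exact (h i).irr l M hM hst)
        (by
          intro i hfin
          apply (h i).inf l
          refine Set.Finite.of_finite_image (f := fun u : GL (Fin (T i).n) ℤ_[l] =>
            (u : Matrix (Fin (T i).n) (Fin (T i).n) ℤ_[l])) (hfin.subset ?_)
            (fun u _ v _ huv => Units.ext huv)
          rintro _ ⟨_, ⟨γ, rfl⟩, rfl⟩
          exact ⟨γ, rfl⟩)
        (by
          intro i j hij
          obtain ⟨p, γ, c, d, hp, hcd, hc, hd⟩ := exists_frob hF (hne i j hij) l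
          refine ⟨γ, fun he => hcd ?_⟩
          have h1 := hc l (Ne.symm hp)
          have h2 := hd l (Ne.symm hp)
          have h3 : (T i).tr2 l γ = (T j).tr2 l γ := he
          rw [h3, h2] at h1
          exact_mod_cast h1.symm)
      exact ⟨C, fun _ => bdd_of_cosets hC⟩
    · exact ⟨0, fun hl' => absurd hl'.out hl⟩
  choose Cs hCs using hsmall
  -- large primes
  choose LF hLF using fun i => (h i).irr_mod
  choose LO hLO using fun i => (h i).ord_mod
  have hpair : ∀ i j : ι, ∃ L : ℕ, i ≠ j → ∀ (l : ℕ) [Fact l.Prime], L ≤ l → ∃ γ,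
      PadicInt.toZMod ((T i).tr2 l γ) ≠ PadicInt.toZMod ((T j).tr2 l γ) := by
    intro i j
    by_cases hij : i = j
    · exact ⟨0, fun h => absurd hij h⟩
    · obtain ⟨p, γ, c, d, _, hcd, hc, hd⟩ := exists_frob hF (hne i j hij) 0
      refine ⟨p + 1 + (c - d).num.natAbs, fun _ l hl hL => ⟨γ, ?_⟩⟩
      exact toZMod_ne (hc l (by omega)) (hd l (by omega)) hcd (by omega)
  choose LP hLP using hpair
  set N := 3 + ∑ i, (T i).n with hN
  set L := ∑ i, LF i + ∑ i, LO i + ∑ i, ∑ j, LP i j + ∑ i, (T i).B.det.natAbs + 2 * N + 7 with hL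
  set C1 := 2 ^ (∑ i, (T i).n) * ((∑ i, (T i).n ^ 2 + 1) * ((∑ i, (T i).n ^ 2 + 1) * N)) ^
      (∑ i, (T i).n ^ 2 + 1) with hC1
  have hs : ∀ (f : ι → ℕ) (i : ι), f i ≤ ∑ i, f i := fun f i =>
    Finset.single_le_sum (fun _ _ => Nat.zero_le _) (Finset.mem_univ i)
  refine ⟨C1 + ∑ l ∈ Finset.range L, Cs l, fun l hl => ?_⟩
  by_cases hlL : L ≤ l
  · have hmain : (MonoidHom.pi fun i => (T i).ρ l).range.relIndex
      (Subgroup.pi Set.univ fun i => SOg ((T i).B.map (Int.cast : ℤ → ℤ_[l]))) ≠ 0 ∧
      (MonoidHom.pi fun i => (T i).ρ l).range.relIndex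
      (Subgroup.pi Set.univ fun i => SOg ((T i).B.map (Int.cast : ℤ → ℤ_[l]))) ≤ C1 := by
      refine bdd_of_cosets fun k g g' hg hgg hgg' hne' => ?_
      have h2 : ∀ i, rd (n := fun i => (T i).n) (fun i => (T i).B.map (Int.cast : ℤ → ℤ_[l])) i =
          (T i).B.map (Int.cast : ℤ → ZMod l) := fun i =>
        map_cast (PadicInt.toZMod (p := l)) (T i).B
      refine cosets_large (n := fun i => (T i).n)
        (A := fun i => (T i).B.map (Int.cast : ℤ → ℤ_[l])) (r := toM fun i => (T i).ρ l)
        (toM_cont fun i => (T i).cont l) (fun i => symm_cast (T i).symm)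
        ?_ (fun i => (T i).rank) (fun γ i => ((T i).mem l γ).1) (N := N) (by omega) ?_ (by omega)
        ?_ ?_ ?_ k g g' hg hgg hgg' hne'
      · intro i
        rw [h2, det_cast]
        have := hs (fun i => (T i).B.det.natAbs) i
        exact int_cast_ne (T i).det_ne (by omega)
      · intro i
        have := hs (fun i => (T i).n) i
        change (T i).n ≤ N
        omega
      · intro i M hM hst
        rw [h2] at hM ⊢
        have := hs LF i
        exact hLF i l (by omega) M hM hst
      · intro i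
        have := hs LO i
        exact hLO i l (by omega)
      · intro i j hij
        have h3 := hs (fun i => ∑ j, LP i j) i
        have h4 := hs (fun j => LP i j) j
        obtain ⟨γ, hγ⟩ := hLP i j hij l (by omega)
        refine ⟨γ, ?_⟩
        have h5 := map_t (PadicInt.toZMod (p := l)) ((T i).mat l γ)
        have h6 := map_t (PadicInt.toZMod (p := l)) ((T j).mat l γ)
        intro he
        apply hγ
        have h7 : ((T i).mat l γ).trace ^ 2 - ((T i).mat l γ * (T i).mat l γ).trace =
          (T i).tr2 l γ := rfl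
        have h8 : ((T j).mat l γ).trace ^ 2 - ((T j).mat l γ * (T j).mat l γ).trace =
          (T j).tr2 l γ := rfl
        rw [← h7, ← h8, ← h5, ← h6]
        exact he
    exact ⟨hmain.1, hmain.2.trans (Nat.le_add_right _ _)⟩
  · have h1 := hCs l hl
    refine ⟨h1.1, h1.2.trans ?_⟩
    refine le_trans ?_ (Nat.le_add_left _ _)
    exact Finset.single_le_sum (f := Cs) (fun _ _ => Nat.zero_le _)
      (Finset.mem_range.2 (not_le.1 hlL))

theorem different_of_bounded {ι : Type} [Fintype ι] [DecidableEq ι] {T : ι → Sys Γ}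
    (h : BoundedProd T) : Different T := by
  obtain ⟨C, hC⟩ := h
  intro i j hij
  by_contra hcon
  push Not at hcon
  haveI : Fact (Nat.Prime 2) := ⟨Nat.prime_two⟩
  have hall := hcon 2 ⟨Nat.prime_two⟩
  have hid : ∀ (k : ι) (γ : Γ), (T k).ρ 2 γ = 1 →
      (T k).tr2 2 γ = (((T k).n : ℕ) : ℤ_[2]) ^ 2 - (((T k).n : ℕ) : ℤ_[2]) := by
    intro k γ hγ
    have h1 : (T k).mat 2 γ = 1 := by
      unfold Sys.mat
      rw [hγ]
      rfl
    unfold Sys.tr2
    rw [h1, mul_one, Matrix.trace_one, Fintype.card_fin]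
  have h1 := hall 1
  rw [hid i 1 (map_one _), hid j 1 (map_one _)] at h1
  have hn : 3 ≤ (T i).n := by have := (T i).rank; omega
  refine diff_of_pow (symm_cast (T i).symm) (det_cast_ne (p := 2) (T i).det_ne) hn
    (q := 2 * C.factorial) (Nat.mul_pos (by norm_num) (Nat.factorial_pos _)) fun g hg => ?_
  obtain ⟨γ, hγ, hγj⟩ := pow_of_idx_prod (n := fun i => (T i).n)
    (A := fun i => (T i).B.map (Int.cast : ℤ → ℤ_[2])) (ρ := fun i => (T i).ρ 2) (hC 2).1 (hC 2).2
    (i := i) (det_cast_ne (T i).det_ne) hg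
  have h2 := hall γ
  rw [hid j γ (hγj j (Ne.symm hij)), ← h1] at h2
  rw [← h2, ← hγ]
  rfl

end

/-- **Theorem.** Let `Γ` be a compact group and `T_i` finitely many systems of orthogonal
representations such that the Frobenius elements are dense (even if finitely many primes are
omitted). The following are equivalent:
(1) the index of the image of `Γ` in `∏ SO(T_i)(ℤ_l)` is bounded independently of `l`;
(2) for every `i` the index of the image of `Γ` in `SO(T_i)(ℤ_l)` is bounded independently of `l`, and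
for `i ≠ j` the characters of `Λ²T_i` and `Λ²T_j` are different for some `l`;
(3) every `T_i` satisfies the criterion `Crit`, and for `i ≠ j` the characters of `Λ²T_i` and `Λ²T_j`
are different for some `l`. -/
theorem result (Γ : Type) [Group Γ] [TopologicalSpace Γ] [CompactSpace Γ] (ι : Type) [Finite ι]
    (T : ι → Sys Γ) (hF : ∀ S : Finset ℕ, Dense {γ : Γ | ∃ p, p ∉ S ∧ Frob T p γ}) :
    List.TFAE [BoundedProd T, (∀ i, Bounded (T i)) ∧ Different T, (∀ i, Crit (T i)) ∧ Different T] := by
  classical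
  haveI := Fintype.ofFinite ι
  tfae_have 1 → 2 := by
    intro h
    refine ⟨?_, different_of_bounded h⟩
    obtain ⟨C, hC⟩ := h
    intro i
    exact ⟨C, fun l hl => relIndex_proj (hC l).1 (hC l).2 i⟩
  tfae_have 2 → 3 := fun h => ⟨fun i => crit_of_bounded (h.1 i), h.2⟩
  tfae_have 3 → 1 := fun h => bounded_of_crit hF h.2 h.1
  tfae_finish

end Pool.Agent.Results.MP_2b5912_ag.IntegralProducts
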