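import Pool.Agent.Results.MP_2b5912_ag.IntegralProducts
import Pool.Agent.Y127.I.Node3

/-!
# Bounded index and irreducibility for systems with a node

The file `IntegralProducts` of this folder treats products of orthogonal systems `T_i` of rank `3` or
`≥ 5`, the transcendental lattices of `H²(X_i)(1)` with Mumford–Tate groups `SO(T_i)`. Here `Γ` is
the Galois group of the field `k` itself (or of any finite extension), so that it acts on `T_i` by
isometries of determinant `1` or `-1`; the subgroup `Γ⁺` of the elements which have determinant `1` on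
all `T_i` is open and is the Galois group of a finite extension of `k`.

We assume that `T_i` has a *node*: for every `l` some element of `Γ` acts on `T_i ⊗ ℤ_l` as a
reflection, that is an involution of trace `rank T_i - 2`. By the Picard–Lefschetz formula this holds
if `k` has places of different residue characteristics (different from `2`) at which the surface
`X_i` degenerates to a surface with one ordinary double point, and the vanishing cycle is
not algebraic.

We prove that Q1 holds for the product `X` of the `X_i` if and only if the Galois modules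
`T_i ⊗ ℚ_l` for all `l`, and `T_i ⊗ 𝔽_l` for almost all `l`, are irreducible under all subgroups of `Γ` of
index at most `5 ^ (4 n²)`, `n = rank T_i`, and for `i ≠ j` the modules `Λ²T_i` and `Λ²T_j` have different
characters on `Γ⁺`. In particular, for one such `X`, Q1 (which implies the Mumford–Tate
conjecture) is equivalent to irreducibility properties of `T ⊗ ℚ_l` and `T ⊗ 𝔽_l`, and these are the
only conditions; it is not assumed that the images are infinite or that the order of
the image modulo `l` is divisible by `l`.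

Idea: (1) Let `M` be a subspace of `so(T)` which is stable under a set of reflections whose roots
span and cannot be decomposed into two orthogonal subsets. For a root `ε` put
`U_ε = {w : w ∧ ε ∈ M}`. If `(ε, η) ≠ 0` then `U_ε` and `U_η` have the same intersection with `η^⊥`, so
they have the same dimension and `U_ε = U_η` or `U_ε ∩ ε^⊥ = U_η ∩ η^⊥`. One shows that the first is true for
all pairs, and `M = so(T)`, or the subspace `U_ε ∩ ε^⊥` is independent of `ε`, hence `0`, and `M = 0`.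
(2) If `M` is only stable under `Γ⁺` one applies (1) to `M ∩ rM` and `M + rM`, `r` a reflection; the case
`so(T) = M ⊕ rM` is impossible by the dimensions, as `rank T ≠ 4`.
(3) If the image modulo `l` has an order prime to `l` then it can be lifted to `GL_n(ℤ_l)`, and by
Jordan's theorem some subgroup of `Γ` of index at most `5 ^ (2 n²)` has an abelian image. A
subgroup of index at most `5 ^ (4 n²)` is also stable under the conjugation with `r`; the
commutators with `r` have nonzero fixed vectors, hence they are trivial and the line of the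
root is stable.
-/

namespace Pool.Agent.Results.MP_2b5912_ag.NodalIntegral

open Pool.Agent.Y127.I Pool.Agent.Results.MP_2b5912_ag.IntegralProducts

/-- A lattice `T` with a nondegenerate symmetric form and, for every prime number `l`, a continuous
action of `Γ` on `T ⊗ ℤ_l` by isometries. -/
structure OSys (Γ : Type) [Group Γ] [TopologicalSpace Γ] where
  /-- the rank of `T` -/
  n : ℕ
  /-- the matrix of the form -/
  B : Matrix (Fin n) (Fin n) ℤ
  symm : B.IsSymm
  det_ne : B.det ≠ 0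
  rank : n = 3 ∨ 5 ≤ n
  /-- the action -/
  ρ : ∀ (l : ℕ) [Fact l.Prime], Γ →* GL (Fin n) ℤ_[l]
  cont : ∀ (l : ℕ) [Fact l.Prime], Continuous (ρ l)
  isom : ∀ (l : ℕ) [Fact l.Prime] (γ : Γ),
    (ρ l γ : Matrix (Fin n) (Fin n) ℤ_[l]).transpose * B.map (Int.cast : ℤ → ℤ_[l]) *
      (ρ l γ : Matrix (Fin n) (Fin n) ℤ_[l]) = B.map (Int.cast : ℤ → ℤ_[l])

section

variable {Γ : Type} [Group Γ] [TopologicalSpace Γ]

/-- The matrix of `γ` on `T ⊗ ℤ_l`. -/
noncomputable def OSys.mat (T : OSys Γ) (l : ℕ) [Fact l.Prime] (γ : Γ) :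
    Matrix (Fin T.n) (Fin T.n) ℤ_[l] :=
  (T.ρ l γ : GL (Fin T.n) ℤ_[l])

/-- The traces of `γ` and `γ²` and the determinant of `γ` on all `T_i ⊗ ℚ_l` are rational and independent
of `l ≠ p`. -/
def RatFrob {ι : Type} (T : ι → OSys Γ) (p : ℕ) (γ : Γ) : Prop :=
  ∀ i, ∃ a b c : ℚ, ∀ (l : ℕ) [Fact l.Prime], l ≠ p →
    ((((T i).mat l γ).trace : ℤ_[l]) : ℚ_[l]) = a ∧
    ((((T i).mat l γ * (T i).mat l γ).trace : ℤ_[l]) : ℚ_[l]) = b ∧
    ((((T i).mat l γ).det : ℤ_[l]) : ℚ_[l]) = c

theorem OSys.mat_one (T : OSys Γ) (l : ℕ) [Fact l.Prime] : T.mat l 1 = 1 := by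
  unfold OSys.mat
  rw [map_one]
  rfl

theorem OSys.mat_mul (T : OSys Γ) (l : ℕ) [Fact l.Prime] (γ δ : Γ) :
    T.mat l (γ * δ) = T.mat l γ * T.mat l δ := by
  unfold OSys.mat
  rw [map_mul]
  rfl

theorem OSys.mat_mul_inv (T : OSys Γ) (l : ℕ) [Fact l.Prime] (γ : Γ) :
    T.mat l γ * T.mat l γ⁻¹ = 1 := by
  rw [← T.mat_mul, mul_inv_cancel, T.mat_one]

/-- The subgroup `Γ⁺` of the elements with determinant `1` on all `T_i ⊗ ℤ_l`. -/
def plus {ι : Type} (T : ι → OSys Γ) : Subgroup Γ where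
  carrier := {γ | ∀ (i : ι) (l : ℕ) [Fact l.Prime], ((T i).mat l γ).det = 1}
  one_mem' := fun i l _ => by rw [OSys.mat_one, Matrix.det_one]
  mul_mem' := fun {a b} ha hb i l _ => by
    rw [OSys.mat_mul, Matrix.det_mul, ha i l, hb i l, one_mul]
  inv_mem' := fun {a} ha i l _ => by
    have h1 := congrArg Matrix.det ((T i).mat_mul_inv l a)
    rwa [Matrix.det_mul, ha i l, one_mul, Matrix.det_one] at h1

/-- The system `T_i` restricted to `Γ⁺`. -/
noncomputable def restr {ι : Type} (T : ι → OSys Γ) (i : ι) : Sys (plus T) where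
  n := (T i).n
  B := (T i).B
  symm := (T i).symm
  det_ne := (T i).det_ne
  rank := (T i).rank
  ρ := fun l _ => ((T i).ρ l).comp (plus T).subtype
  cont := fun l _ => ((T i).cont l).comp continuous_subtype_val
  mem := fun l _ γ => ⟨(T i).isom l γ.1, γ.2 i l⟩

/-- `T` has a node: for all `l` some element of `Γ` acts on `T ⊗ ℤ_l` as a reflection (an involution
with trace `rank T - 2`). -/
def HasNode (T : OSys Γ) : Prop :=
  ∀ (l : ℕ) [Fact l.Prime], ∃ γ, T.mat l γ * T.mat l γ = 1 ∧ (T.mat l γ).trace = (T.n : ℤ_[l]) - 2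

/-- For a homomorphism `f` from `ℤ_l` to a field `F`: no proper subspace of `T ⊗ F` is stable under a
subgroup of `Γ` of index at most `N`. -/
def IrrUpTo (T : OSys Γ) (N l : ℕ) [Fact l.Prime] {F : Type} [Field F] (f : ℤ_[l] →+* F) : Prop :=
  ∀ Δ : Subgroup Γ, Δ.index ≠ 0 → Δ.index ≤ N → ∀ W : Submodule F (Fin T.n → F),
    (∀ γ ∈ Δ, ∀ x ∈ W, ((T.mat l γ).map f).mulVec x ∈ W) → W = ⊥ ∨ W = ⊤

/-- `T ⊗ ℚ_l` for all `l` and `T ⊗ 𝔽_l` for almost all `l` are irreducible under the subgroups of index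
at most `N`. -/
structure Irreducible (T : OSys Γ) (N : ℕ) : Prop where
  rat : ∀ (l : ℕ) [Fact l.Prime], IrrUpTo T N l (PadicInt.Coe.ringHom : ℤ_[l] →+* ℚ_[l])
  mod : ∃ L : ℕ, ∀ (l : ℕ) [Fact l.Prime], L ≤ l →
    IrrUpTo T N l (PadicInt.toZMod : ℤ_[l] →+* ZMod l)

/-! ### The homomorphisms to matrices -/

/-- The homomorphism to the matrices over `F`. -/
noncomputable def rhoF (T : OSys Γ) (l : ℕ) [Fact l.Prime] {F : Type} [Field F]
    (f : ℤ_[l] →+* F) : Γ →* Matrix (Fin T.n) (Fin T.n) F :=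
  (f.mapMatrix (m := Fin T.n)).toMonoidHom.comp ((Units.coeHom _).comp (T.ρ l))

theorem rhoF_apply (T : OSys Γ) (l : ℕ) [Fact l.Prime] {F : Type} [Field F]
    (f : ℤ_[l] →+* F) (γ : Γ) : rhoF T l f γ = (T.mat l γ).map f := rfl

theorem rhoF_isom (T : OSys Γ) (l : ℕ) [Fact l.Prime] {F : Type} [Field F]
    (f : ℤ_[l] →+* F) (γ : Γ) : (rhoF T l f γ).transpose * T.B.map (Int.cast : ℤ → F) *
      rhoF T l f γ = T.B.map (Int.cast : ℤ → F) := by
  have h2 := congrArg (fun x : Matrix (Fin T.n) (Fin T.n) ℤ_[l] => x.map f) (T.isom l γ)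
  simp only [Matrix.map_mul, map_cast f T.B] at h2
  exact h2

theorem rhoF_node {T : OSys Γ} (hn : HasNode T) (l : ℕ) [Fact l.Prime] {F : Type} [Field F]
    (f : ℤ_[l] →+* F) : ∃ γ, IsRf (rhoF T l f γ) := by
  obtain ⟨γ, h1, h2⟩ := hn l
  refine ⟨γ, ?_, ?_⟩
  · have h3 := congrArg (f.mapMatrix (m := Fin T.n)) h1
    rw [map_mul, map_one] at h3
    exact h3
  · have h3 := congrArg f h2
    rw [map_sub, map_natCast, map_ofNat] at h3
    rw [← h3]
    exact (AddMonoidHom.map_trace f.toAddMonoidHom (T.mat l γ)).symm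

theorem le_bound (n : ℕ) : n ≤ 5 ^ (2 * (n * n)) * 5 ^ (2 * (n * n)) := by
  rcases Nat.eq_zero_or_pos n with rfl | hn
  · exact Nat.zero_le _
  · have h1 : n < 5 ^ n := Nat.lt_pow_self (by norm_num)
    have h2 : n ≤ 2 * (n * n) := by nlinarith
    have h3 : 5 ^ n ≤ 5 ^ (2 * (n * n)) := Nat.pow_le_pow_right (by norm_num) h2
    have h4 : 5 ^ (2 * (n * n)) * 1 ≤ 5 ^ (2 * (n * n)) * 5 ^ (2 * (n * n)) :=
      Nat.mul_le_mul_left _ (Nat.one_le_pow _ _ (by norm_num))
    omega

theorem bound_eq (n : ℕ) : 5 ^ (2 * (n * n)) * 5 ^ (2 * (n * n)) = 5 ^ (4 * n ^ 2) := by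
  rw [← pow_add]
  congr 1
  ring

/-! ### The subgroup `Γ⁺` -/

theorem det_sq (T : OSys Γ) (l : ℕ) [Fact l.Prime] (γ : Γ) :
    (T.mat l γ).det * (T.mat l γ).det = 1 := by
  have h2 := congrArg Matrix.det (T.isom l γ)
  rw [Matrix.det_mul, Matrix.det_mul, Matrix.det_transpose] at h2
  have hd : (T.B.map (Int.cast : ℤ → ℤ_[l])).det ≠ 0 := det_cast_ne T.det_ne
  change (T.mat l γ).det * _ * (T.mat l γ).det = _ at h2
  have h3 : (T.B.map (Int.cast : ℤ → ℤ_[l])).det * ((T.mat l γ).det * (T.mat l γ).det) =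
      (T.B.map (Int.cast : ℤ → ℤ_[l])).det * 1 := by linear_combination h2
  exact mul_left_cancel₀ hd h3

theorem det_pm (T : OSys Γ) (l : ℕ) [Fact l.Prime] (γ : Γ) :
    (T.mat l γ).det = 1 ∨ (T.mat l γ).det = -1 :=
  mul_self_eq_one_iff.1 (det_sq T l γ)

theorem one_ne_neg (l : ℕ) [Fact l.Prime] : (1 : ℤ_[l]) ≠ -1 := by
  intro h
  have h1 : (2 : ℤ_[l]) = 0 := by linear_combination h
  exact two_ne_zero h1

theorem det_cont (T : OSys Γ) (l : ℕ) [Fact l.Prime] : Continuous fun γ => (T.mat l γ).det :=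
  Continuous.matrix_det (Units.continuous_val.comp (T.cont l))

theorem plus_commutator {ι : Type} (T : ι → OSys Γ) (a b : Γ) : a * b * a⁻¹ * b⁻¹ ∈ plus T := by
  intro i l _
  have h1 := congrArg Matrix.det ((T i).mat_mul_inv l a)
  have h2 := congrArg Matrix.det ((T i).mat_mul_inv l b)
  rw [Matrix.det_mul, Matrix.det_one] at h1 h2
  rw [OSys.mat_mul, OSys.mat_mul, OSys.mat_mul, Matrix.det_mul, Matrix.det_mul, Matrix.det_mul]
  linear_combination (((T i).mat l b).det * ((T i).mat l b⁻¹).det) * h1 + h2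

theorem plus_sq {ι : Type} (T : ι → OSys Γ) (a : Γ) : a ^ 2 ∈ plus T := by
  intro i l _
  rw [sq, OSys.mat_mul, Matrix.det_mul, det_sq]

section dense

variable {ι : Type} {T : ι → OSys Γ} (hF : ∀ S : Finset ℕ, Dense {γ : Γ | ∃ p, p ∉ S ∧ RatFrob T p γ})
include hF

theorem det_indep (i : ι) (l : ℕ) [Fact l.Prime] [Fact (Nat.Prime 2)] (γ : Γ) :
    ((T i).mat l γ).det = 1 ↔ ((T i).mat 2 γ).det = 1 := by
  have hcl : IsClosed {γ : Γ | (((T i).mat l γ).det = 1 ∧ ((T i).mat 2 γ).det = 1) ∨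
      (((T i).mat l γ).det = -1 ∧ ((T i).mat 2 γ).det = -1)} := by
    refine IsClosed.union ?_ ?_
    · exact (isClosed_eq (det_cont (T i) l) continuous_const).inter
        (isClosed_eq (det_cont (T i) 2) continuous_const)
    · exact (isClosed_eq (det_cont (T i) l) continuous_const).inter
        (isClosed_eq (det_cont (T i) 2) continuous_const)
  have hsub : {γ : Γ | ∃ p, p ∉ ({l, 2} : Finset ℕ) ∧ RatFrob T p γ} ⊆
      {γ : Γ | (((T i).mat l γ).det = 1 ∧ ((T i).mat 2 γ).det = 1) ∨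
      (((T i).mat l γ).det = -1 ∧ ((T i).mat 2 γ).det = -1)} := by
    rintro γ ⟨p, hp, hfr⟩
    rw [Finset.mem_insert, Finset.mem_singleton, not_or] at hp
    obtain ⟨_, _, c, hc⟩ := hfr i
    have h1 := (hc l (Ne.symm hp.1)).2.2
    have h2 := (hc 2 (Ne.symm hp.2)).2.2
    rcases det_pm (T i) l γ with h3 | h3
    · left
      refine ⟨h3, ?_⟩
      rw [h3, PadicInt.coe_one] at h1
      have h4 : c = 1 := by exact_mod_cast h1.symm
      rw [h4, Rat.cast_one] at h2
      exact PadicInt.ext (by rw [h2, PadicInt.coe_one])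
    · right
      refine ⟨h3, ?_⟩
      rw [h3, PadicInt.coe_neg, PadicInt.coe_one] at h1
      have h4 : c = -1 := by exact_mod_cast h1.symm
      rw [h4, Rat.cast_neg, Rat.cast_one] at h2
      exact PadicInt.ext (by rw [h2, PadicInt.coe_neg, PadicInt.coe_one])
  have hall := ((hF {l, 2}).mono hsub).closure_eq
  rw [hcl.closure_eq] at hall
  have hγ : γ ∈ (Set.univ : Set Γ) := trivial
  rw [← hall] at hγ
  rcases hγ with ⟨h1, h2⟩ | ⟨h1, h2⟩
  · exact ⟨fun _ => h2, fun _ => h1⟩
  · constructor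
    · intro h3
      rw [h3] at h1
      exact absurd h1 (one_ne_neg l)
    · intro h3
      rw [h3] at h2
      exact absurd h2 (one_ne_neg 2)

theorem mem_plus_iff [Fact (Nat.Prime 2)] (γ : Γ) :
    γ ∈ plus T ↔ ∀ i, ((T i).mat 2 γ).det = 1 := by
  constructor
  · intro h i
    exact h i 2
  · intro h i l _
    exact (det_indep hF i l γ).2 (h i)

theorem plus_isClosed : IsClosed (plus T : Set Γ) := by
  haveI : Fact (Nat.Prime 2) := ⟨Nat.prime_two⟩
  have h1 : (plus T : Set Γ) = ⋂ i, {γ | ((T i).mat 2 γ).det = 1} := by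
    ext γ
    rw [SetLike.mem_coe, mem_plus_iff hF, Set.mem_iInter]
    rfl
  rw [h1]
  exact isClosed_iInter fun i => isClosed_eq (det_cont (T i) 2) continuous_const

theorem plus_isOpen [Finite ι] : IsOpen (plus T : Set Γ) := by
  haveI : Fact (Nat.Prime 2) := ⟨Nat.prime_two⟩
  have h1 : (plus T : Set Γ) = ⋂ i, {γ | ((T i).mat 2 γ).det ≠ -1} := by
    ext γ
    rw [SetLike.mem_coe, mem_plus_iff hF, Set.mem_iInter]
    refine forall_congr' fun i => ?_
    constructor
    · intro h
      change _ ≠ _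
      rw [h]
      exact one_ne_neg 2
    · intro h
      exact (det_pm (T i) 2 γ).resolve_right h
  rw [h1]
  exact isOpen_iInter_of_finite fun i => isOpen_ne_fun (det_cont (T i) 2) continuous_const

theorem plus_index [Finite ι] : (plus T).index ≠ 0 := by
  haveI : Fact (Nat.Prime 2) := ⟨Nat.prime_two⟩
  let φ : Γ →* (ι → ℤ_[2]ˣ) := MonoidHom.pi fun i => Matrix.GeneralLinearGroup.det.comp ((T i).ρ 2)
  have hφ : ∀ γ i, ((φ γ i : ℤ_[2]ˣ) : ℤ_[2]) = ((T i).mat 2 γ).det := fun γ i => rfl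
  have hker : φ.ker ≤ plus T := by
    intro γ hγ
    rw [mem_plus_iff hF]
    intro i
    rw [← hφ, congrFun (MonoidHom.mem_ker.1 hγ) i]
    rfl
  refine ne_zero_of_dvd_ne_zero ?_ (Subgroup.index_dvd_of_le hker)
  have hfin : (Set.pi Set.univ fun _ : ι => ({1, -1} : Set ℤ_[2]ˣ)).Finite :=
    Set.Finite.pi fun _ => Set.toFinite _
  have hsub : (φ.range : Set (ι → ℤ_[2]ˣ)) ⊆ Set.pi Set.univ fun _ : ι => ({1, -1} : Set ℤ_[2]ˣ) := by
    rintro _ ⟨γ, rfl⟩ i _
    rcases det_pm (T i) 2 γ with h | h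
    · left
      exact Units.ext h
    · right
      exact Units.ext h
  haveI : Finite φ.range := hfin.subset hsub
  rw [Subgroup.index_ker]
  exact Nat.card_pos.ne'

theorem plus_dense [Finite ι] (S : Finset ℕ) :
    Dense {γ : plus T | ∃ p, p ∉ S ∧ Frob (restr T) p γ} := by
  refine ((hF S).preimage (plus_isOpen hF).isOpenMap_subtype_val).mono ?_
  rintro γ ⟨p, hp, hfr⟩
  refine ⟨p, hp, fun i => ?_⟩
  obtain ⟨a, b, c, hc⟩ := hfr i
  refine ⟨a ^ 2 - b, fun l _ hl => ?_⟩
  obtain ⟨h1, h2, _⟩ := hc l hl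
  have h3 : (restr T i).tr2 l γ = ((T i).mat l γ.1).trace ^ 2 -
      ((T i).mat l γ.1 * (T i).mat l γ.1).trace := rfl
  rw [h3, PadicInt.coe_sub, PadicInt.coe_pow, h1, h2]
  push_cast
  rfl

end dense

/-! ### The criterion -/

theorem finite_range {G : Type} [Group G] (f : Γ →* G) {H : Subgroup Γ} (h0 : H.index ≠ 0)
    (hfin : (Set.range (f.comp H.subtype)).Finite) : (Set.range f).Finite := by
  have h1 : f.ker.relIndex H ≠ 0 := by
    rw [Subgroup.relIndex_ker]
    have h2 : ((H.map f : Subgroup G) : Set G) = Set.range (f.comp H.subtype) := by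
      ext x
      constructor
      · rintro ⟨y, hy, rfl⟩
        exact ⟨⟨y, hy⟩, rfl⟩
      · rintro ⟨y, rfl⟩
        exact ⟨y.1, y.2, rfl⟩
    haveI : Finite (H.map f) := by
      have h3 : ((H.map f : Subgroup G) : Set G).Finite := by rw [h2]; exact hfin
      exact h3
    exact Nat.card_pos.ne'
  have h2 : f.ker.index ≠ 0 := by
    rw [← Subgroup.relIndex_top_right]
    exact Subgroup.relIndex_ne_zero_trans h1 (by rw [Subgroup.relIndex_top_right]; exact h0)
  rw [Subgroup.index_ker] at h2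
  haveI : Finite f.range := Nat.finite_of_card_ne_zero h2
  exact Set.toFinite (f.range : Set G)

theorem p_two' {l : ℕ} [hl : Fact l.Prime] (h : 2 < l) : (2 : ZMod l) ≠ 0 := by
  intro h0
  have h1 : ((2 : ℕ) : ZMod l) = 0 := by exact_mod_cast h0
  rw [ZMod.natCast_eq_zero_iff] at h1
  have := Nat.le_of_dvd (by norm_num) h1
  omega

theorem cast_one_of {l n : ℕ} [hl : Fact l.Prime] (h : n < l) (k : ℕ) (hk : k ≤ n)
    (hk1 : (k : ZMod l) = 1) : k = 1 := by
  have h1 : (k : ZMod l) = ((1 : ℕ) : ZMod l) := by rw [hk1, Nat.cast_one]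
  rw [ZMod.natCast_eq_natCast_iff'] at h1
  rwa [Nat.mod_eq_of_lt (by omega), Nat.mod_eq_of_lt hl.out.one_lt] at h1

theorem eq_one_of_odd {M : Type} [Monoid M] {x : M} {l : ℕ} (h : l % 2 = 1) (h1 : x ^ 2 = 1)
    (h2 : x ^ l = 1) : x = 1 := by
  rwa [← Nat.div_add_mod l 2, h, pow_add, pow_mul, h1, one_pow, one_mul, pow_one] at h2

theorem crit_of_node {ι : Type} [Finite ι] {T : ι → OSys Γ}
    (hF : ∀ S : Finset ℕ, Dense {γ : Γ | ∃ p, p ∉ S ∧ RatFrob T p γ}) {i : ι} (hn : HasNode (T i))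
    (hs : Irreducible (T i) (5 ^ (4 * (T i).n ^ 2))) : Crit (restr T i) := by
  have hn3 : 3 ≤ (T i).n := by have := (T i).rank; omega
  refine ⟨?_, ?_, ?_, ?_⟩
  · intro l hl M hM hst
    refine irr_of_node (A := (T i).B.map (Int.cast : ℤ → ℚ_[l])) (symm_cast (T i).symm) ?_
      two_ne_zero (fun k _ hk => by exact_mod_cast hk) (T i).rank
      (ρ := rhoF (T i) l (PadicInt.Coe.ringHom : ℤ_[l] →+* ℚ_[l])) (rhoF_isom _ _ _) ?_
      (rhoF_node hn l _) (plus_commutator T) hM (fun γ hγ X hX => hst ⟨γ, hγ⟩ X hX)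
    · rw [det_cast]
      exact_mod_cast (T i).det_ne
    · intro Δ h0 hi
      exact hs.rat l Δ h0 (hi.trans (by rw [← bound_eq]; exact le_bound _))
  · intro l hl hfin
    have hfin' : (Set.range ((T i).ρ l)).Finite := finite_range _ (plus_index hF) hfin
    rcases inf_or_abelian ((T i).ρ l) with h | ⟨D, hD0, hDJ, hD⟩
    · exact h hfin'
    · refine node_not_abelian_matrix (A := (T i).B.map (Int.cast : ℤ → ℚ_[l]))
        (symm_cast (T i).symm) ?_ two_ne_zero (fun k _ hk => by exact_mod_cast hk) hn3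
        (ρ := rhoF (T i) l (PadicInt.Coe.ringHom : ℤ_[l] →+* ℚ_[l])) (rhoF_isom _ _ _)
        (rhoF_node hn l _) hD0 hDJ ?_ ?_
      · rw [det_cast]
        exact_mod_cast (T i).det_ne
      · intro a ha b hb
        have h1 := congrArg (fun u : GL (Fin (T i).n) ℤ_[l] =>
          (PadicInt.Coe.ringHom (p := l)).mapMatrix (u : Matrix (Fin (T i).n) (Fin (T i).n) ℤ_[l]))
          (hD a ha b hb)
        simp only [Units.val_mul, map_mul] at h1
        exact h1
      · intro Δ h0 hi
        exact hs.rat l Δ h0 (by rw [← bound_eq]; exact hi)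
  · obtain ⟨L, hL⟩ := hs.mod
    refine ⟨L + (T i).B.det.natAbs + (T i).n + 7, fun l hl hlL => ?_⟩
    intro M hM hst
    refine irr_of_node (A := (T i).B.map (Int.cast : ℤ → ZMod l)) (symm_cast (T i).symm) ?_
      (p_two' (by omega)) (cast_one_of (by omega)) (T i).rank
      (ρ := rhoF (T i) l (PadicInt.toZMod : ℤ_[l] →+* ZMod l)) (rhoF_isom _ _ _) ?_
      (rhoF_node hn l _) (plus_commutator T) hM (fun γ hγ X hX => hst ⟨γ, hγ⟩ X hX)
    · rw [det_cast]
      exact int_cast_ne (T i).det_ne (by omega)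
    · intro Δ h0 hi
      exact hL l (by omega) Δ h0 (hi.trans (by rw [← bound_eq]; exact le_bound _))
  · obtain ⟨L, hL⟩ := hs.mod
    refine ⟨L + (T i).B.det.natAbs + (T i).n + 7, fun l hl hlL => ?_⟩
    rcases ord_or_abelian ((T i).ρ l) with ⟨γ, hγ1, hγ2⟩ | ⟨D, hD0, hDJ, hD⟩
    · have h3 : red ((T i).ρ l (γ ^ 2) : Matrix (Fin (T i).n) (Fin (T i).n) ℤ_[l]) =
          red ((T i).ρ l γ : Matrix (Fin (T i).n) (Fin (T i).n) ℤ_[l]) ^ 2 := by
        rw [map_pow ((T i).ρ l), Units.val_pow_eq_pow_val, map_pow]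
      refine ⟨⟨γ ^ 2, plus_sq T γ⟩, ?_, ?_⟩
      · intro h1
        have hodd : l % 2 = 1 := by
          rcases hl.out.eq_two_or_odd with h | h
          · omega
          · exact h
        exact hγ1 (eq_one_of_odd hodd (h3.symm.trans h1) hγ2)
      · have h2 : (red ((T i).ρ l γ : Matrix (Fin (T i).n) (Fin (T i).n) ℤ_[l]) ^ 2) ^ l = 1 := by
          rw [← pow_mul, mul_comm, pow_mul, hγ2, one_pow]
        rw [← h3] at h2
        exact h2
    · exfalso
      refine node_not_abelian_matrix (A := (T i).B.map (Int.cast : ℤ → ZMod l))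
        (symm_cast (T i).symm) ?_ (p_two' (by omega)) (cast_one_of (by omega)) hn3
        (ρ := rhoF (T i) l (PadicInt.toZMod : ℤ_[l] →+* ZMod l)) (rhoF_isom _ _ _)
        (rhoF_node hn l _) hD0 hDJ (fun a ha b hb => hD a ha b hb) ?_
      · rw [det_cast]
        exact int_cast_ne (T i).det_ne (by omega)
      · intro Δ h0 hi
        exact hL l (by omega) Δ h0 (by rw [← bound_eq]; exact hi)

theorem irreducible_of_bounded {ι : Type} {T : ι → OSys Γ} {i : ι} (h : Bounded (restr T i)) (N : ℕ) :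
    Irreducible (T i) N := by
  obtain ⟨C, hC⟩ := h
  have hn3 : 3 ≤ (T i).n := by have := (T i).rank; omega
  have hidx : ∀ Δ : Subgroup Γ, Δ.index ≠ 0 → (Δ.subgroupOf (plus T)).index ≠ 0 ∧
      (Δ.subgroupOf (plus T)).index ≤ Δ.index := by
    intro Δ h0
    have h1 : Δ.relIndex ⊤ ≠ 0 := by rw [Subgroup.relIndex_top_right]; exact h0
    have h2 := Subgroup.relIndex_le_of_le_right (K := plus T) le_top h1
    rw [Subgroup.relIndex_top_right] at h2
    refine ⟨?_, h2⟩
    intro h3
    exact h0 (Subgroup.index_eq_zero_of_relIndex_eq_zero (K := plus T) h3)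
  refine ⟨fun l hl Δ h0 hi W hW => ?_, ⟨C + (T i).B.det.natAbs + (T i).n + N + 7,
    fun l hl hlL Δ h0 hi W hW => ?_⟩⟩
  · exact sirrN_padic (Γ := plus T) (symm_cast (T i).symm) (det_cast_ne (T i).det_ne) hn3 (hC l).1
      (hC l).2 (hidx Δ h0).1 (fun γ hγ x hx => hW γ.1 hγ x hx)
  · refine sirrN_mod (Γ := plus T) (A := (T i).B.map (Int.cast : ℤ → ZMod l))
      (symm_cast (T i).symm)
      (by rw [det_cast]; exact int_cast_ne (T i).det_ne (by omega)) hn3 (by omega) (by omega)
      (ρ := (rhoF (T i) l (PadicInt.toZMod : ℤ_[l] →+* ZMod l)).comp (plus T).subtype) ?_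
      (hidx Δ h0).1 (lt_of_le_of_lt ((hidx Δ h0).2.trans hi) (by omega))
      (fun γ hγ x hx => hW γ.1 hγ x hx)
    intro e v hev
    exact crit_E (T i).symm (T i).det_ne (T i).rank (hC l).1 (hC l).2 (by omega) (by omega) hev

end

/-- **Theorem.** Let `Γ` be a compact group and `T_i` finitely many systems of orthogonal
representations (rank `3` or `≥ 5`, determinants `1` or `-1`) with nodes, such that the Frobenius
elements are dense (even if finitely many primes are omitted). Then the subgroup `Γ⁺` of the elements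
of determinant `1` on all `T_i` has a finite index, and the following are equivalent:
(1) the index of the image of `Γ⁺` in `∏ SO(T_i)(ℤ_l)` is bounded independently of `l`;
(2) for every `i` the index of the image of `Γ⁺` in `SO(T_i)(ℤ_l)` is bounded independently of `l`, and
for `i ≠ j` the characters of `Λ²T_i` and `Λ²T_j` on `Γ⁺` are different for some `l`;
(3) for every `i` and `N` the modules `T_i ⊗ ℚ_l` for all `l` and `T_i ⊗ 𝔽_l` for almost all `l` are
irreducible under the subgroups of `Γ` of index at most `N`, and the same condition on the characters;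
(4) the same for `N = 5 ^ (4 n²)`, `n = rank T_i`, and the same condition on the characters. -/
theorem result (Γ : Type) [Group Γ] [TopologicalSpace Γ] [CompactSpace Γ] (ι : Type) [Finite ι]
    (T : ι → OSys Γ) (hF : ∀ S : Finset ℕ, Dense {γ : Γ | ∃ p, p ∉ S ∧ RatFrob T p γ})
    (hn : ∀ i, HasNode (T i)) :
    (plus T).index ≠ 0 ∧ List.TFAE [BoundedProd (restr T),
      (∀ i, Bounded (restr T i)) ∧ Different (restr T),
      (∀ i N, Irreducible (T i) N) ∧ Different (restr T),
      (∀ i, Irreducible (T i) (5 ^ (4 * (T i).n ^ 2))) ∧ Different (restr T)] := by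
  refine ⟨plus_index hF, ?_⟩
  haveI : CompactSpace (plus T) := isCompact_iff_compactSpace.1 (plus_isClosed hF).isCompact
  have h := IntegralProducts.result (plus T) ι (restr T) (plus_dense hF)
  have h31 : (∀ i, Crit (restr T i)) ∧ Different (restr T) → BoundedProd (restr T) :=
    (h.out 2 0).1
  tfae_have 1 ↔ 2 := h.out 0 1
  tfae_have 2 → 3 := fun h => ⟨fun i => irreducible_of_bounded (h.1 i), h.2⟩
  tfae_have 3 → 4 := fun h => ⟨fun i => h.1 i _, h.2⟩
  tfae_have 4 → 1 := fun h' => h31 ⟨fun i => crit_of_node hF (hn i) (h'.1 i), h'.2⟩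
  tfae_finish

end Pool.Agent.Results.MP_2b5912_ag.NodalIntegral
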